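import Mathlib

set_option autoImplicit false

namespace Pool.Agent.Results.MP_dd5d2d_nt.Mod40

/-- The integer orbit `a_0 = n`, `a_{k+1} = a_k^2 - 1`. -/
def orb (n : ℤ) : ℕ → ℤ
  | 0 => n
  | k + 1 => orb n k ^ 2 - 1

theorem cast_orb (p : ℕ) (n : ℤ) (k : ℕ) :
    ((orb n k : ℤ) : ZMod p) = (fun x : ZMod p => x ^ 2 - 1)^[k] (n : ZMod p) := by
  induction k with
  | zero => rfl
  | succ k ih => rw [Function.iterate_succ_apply', ← ih]; simp [orb]

theorem all_reach (p : ℕ) [Fact p.Prime]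
    (h : ∀ n : ℤ, 2 ≤ n → ∃ k, (p : ℤ) ∣ orb n k) (x : ZMod p) :
    ∃ k, (fun x : ZMod p => x ^ 2 - 1)^[k] x = 0 := by
  have hp := (Fact.out : p.Prime).two_le
  obtain ⟨k, hk⟩ := h ((x.val : ℤ) + p) (by have := Nat.zero_le x.val; omega)
  refine ⟨k, ?_⟩
  have := (ZMod.intCast_zmod_eq_zero_iff_dvd _ p).2 hk
  rw [cast_orb] at this
  simpa using this

theorem not_five (p : ℕ) [Fact p.Prime] (h2 : p ≠ 2)
    (h : ∀ x : ZMod p, ∃ k, (fun x : ZMod p => x ^ 2 - 1)^[k] x = 0) :
    ¬ IsSquare (5 : ZMod p) := by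
  rintro ⟨s, hs⟩
  have two : (2 : ZMod p) ≠ 0 := by
    intro h0
    have : ((2 : ℕ) : ZMod p) = 0 := by exact_mod_cast h0
    rw [ZMod.natCast_eq_zero_iff] at this
    exact h2 ((Nat.prime_dvd_prime_iff_eq Fact.out Nat.prime_two).1 this)
  have hfix : (fun x : ZMod p => x ^ 2 - 1) ((1 + s) / 2) = (1 + s) / 2 := by
    simp only
    field_simp
    linear_combination -hs
  obtain ⟨k, hk⟩ := h ((1 + s) / 2)
  rw [Function.iterate_fixed hfix] at hk
  rw [hk] at hfix
  simp at hfix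

theorem sq_two (p : ℕ) [Fact p.Prime] (h3 : 3 < p)
    (h : ∀ x : ZMod p, ∃ k, (fun x : ZMod p => x ^ 2 - 1)^[k] x = 0) :
    IsSquare (2 : ZMod p) := by
  by_contra hns
  have key : ∀ k, ∀ x : ZMod p, ((fun x : ZMod p => x ^ 2 - 1)^[k] x = 0 ∨
      (fun x : ZMod p => x ^ 2 - 1)^[k] x = 1 ∨ (fun x : ZMod p => x ^ 2 - 1)^[k] x = -1) →
      (x = 0 ∨ x = 1 ∨ x = -1) := by
    intro k
    induction k with
    | zero => intro x hx; exact hx
    | succ k ih =>
      intro x hx
      rw [Function.iterate_succ_apply] at hx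
      rcases ih _ hx with h0 | h0 | h0
      · have : (x - 1) * (x + 1) = 0 := by linear_combination h0
        rcases mul_eq_zero.1 this with h1 | h1
        · right; left; linear_combination h1
        · right; right; linear_combination h1
      · exact absurd ⟨x, by linear_combination -h0⟩ hns
      · left
        have : x ^ 2 = 0 := by linear_combination h0
        exact pow_eq_zero_iff (by norm_num) |>.1 this
  obtain ⟨k, hk⟩ := h 2
  have small : ∀ c : ℕ, 0 < c → c ≤ 3 → (c : ZMod p) ≠ 0 := fun c h0 hc hz => by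
    rw [ZMod.natCast_eq_zero_iff] at hz
    have := Nat.le_of_dvd h0 hz
    omega
  rcases key k 2 (Or.inl hk) with h0 | h0 | h0
  · exact small 2 (by norm_num) (by norm_num) (by push_cast; exact h0)
  · exact small 1 (by norm_num) (by norm_num) (by push_cast; linear_combination h0)
  · exact small 3 (by norm_num) (by norm_num) (by push_cast; linear_combination h0)

/-- Every prime `p > 3` dividing some term of every orbit is `7, 17, 23` or `33` modulo `40`. -/
theorem result : ∀ p : ℕ, p.Prime → 3 < p → (∀ n : ℤ, 2 ≤ n → ∃ k, (p : ℤ) ∣ orb n k) →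
    p % 40 = 7 ∨ p % 40 = 17 ∨ p % 40 = 23 ∨ p % 40 = 33 := by
  intro p hp h3 h
  haveI := Fact.mk hp
  have hr := all_reach p h
  have h2 : p ≠ 2 := by omega
  have a := (ZMod.exists_sq_eq_two_iff h2).1 (sq_two p h3 hr)
  have b := not_five p h2 hr
  haveI : Fact (Nat.Prime 5) := ⟨by norm_num⟩
  have c := ZMod.exists_sq_eq_prime_iff_of_mod_four_eq_one (p := 5) (q := p) (by norm_num) h2
  have d : ¬ IsSquare ((p : ℕ) : ZMod 5) := fun hh => b (by exact_mod_cast c.1 hh)
  have e : p % 5 = 2 ∨ p % 5 = 3 := by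
    rw [← ZMod.natCast_mod] at d
    have : p % 5 < 5 := Nat.mod_lt _ (by norm_num)
    interval_cases p % 5
    · exact absurd ⟨0, by rfl⟩ d
    · exact absurd ⟨1, by rfl⟩ d
    · simp
    · simp
    · exact absurd ⟨2, by rfl⟩ d
  omega

end Pool.Agent.Results.MP_dd5d2d_nt.Mod40
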